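import Pool.Agent.N767.LL.Uni2

/-!
# LL/04: universal property of the special vector of the Steinberg representation
-/

open scoped WithZero MatrixGroups
open OnePoint

noncomputable section

namespace N589LL

section U

variable {F : Type} [Field F] {v : Valuation F ℤᵐ⁰} {ϖ : Fˣ} {E : Type} [AddCommGroup E]
  [Module ℂ E] {ρ : Representation ℂ (GL (Fin 2) F) E} {x0 : E}

lemma gl_ext {g h : GL (Fin 2) F} (h00 : g.val 0 0 = h.val 0 0) (h01 : g.val 0 1 = h.val 0 1)
    (h10 : g.val 1 0 = h.val 1 0) (h11 : g.val 1 1 = h.val 1 1) : g = h := by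
  apply Units.ext
  ext i j
  fin_cases i <;> fin_cases j <;> assumption

lemma val_upr (x : F) : (upr x).val = !![1, x; 0, 1] := rfl
lemma val_lwr (x : F) : (lwr x).val = !![1, 0; x, 1] := rfl
lemma val_dg (a d : Fˣ) : (dg a d).val = !![(a : F), 0; 0, (d : F)] := rfl
lemma val_sca (z : Fˣ) : (sca z).val = !![(z : F), 0; 0, (z : F)] := rfl
lemma val_bor (a d : Fˣ) (b : F) : (bor a d b).val = !![(a : F), b; 0, (d : F)] := rfl
lemma val_wm : (wm : GL (Fin 2) F).val = !![0, 1; 1, 0] := rfl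
lemma val_eta (p : Fˣ) : (eta p).val = !![0, 1; (p : F), 0] := rfl

lemma rho_mul (g h : GL (Fin 2) F) (x : E) : ρ (g * h) x = ρ g (ρ h x) := by
  rw [map_mul]; rfl

lemma upr_mem_Iw {x : F} (hx : v x ≤ 1) : upr x ∈ Iw v :=
  ⟨upr_mem_glInt v hx, by simp [val_upr]⟩

lemma lwr_mem_Iw {x : F} (hx : v x < 1) : lwr x ∈ Iw v :=
  ⟨lwr_mem_glInt v hx.le, by simp [val_lwr, hx]⟩

lemma bor_mem_Iw {a d : Fˣ} {b : F} (ha : v a = 1) (hd : v d = 1) (hb : v b ≤ 1) :
    bor a d b ∈ Iw v := by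
  refine ⟨⟨fun i j => ?_, fun i j => ?_⟩, by simp [val_bor]⟩
  · fin_cases i <;> fin_cases j <;> simp [val_bor, ha, hd, hb]
  · change v ((!![(↑a⁻¹ : F), -(↑a⁻¹ : F) * b * (↑d⁻¹ : F); 0, (↑d⁻¹ : F)] :
      Matrix (Fin 2) (Fin 2) F) i j) ≤ 1
    fin_cases i <;> fin_cases j <;> simp [ha, hd, hb]

/-- the measure defined by a special vector. -/
def eM (ρ : Representation ℂ (GL (Fin 2) F) E) (ϖ : Fˣ) (x0 : E) (a : F) (m : ℤ) : E :=
  ρ (upr a * dg (ϖ ^ m) 1) x0

lemma special_split (h : Special v ρ ϖ x0) :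
    x0 = ρ (dg ϖ 1) x0 + ρ (upr 1 * dg ϖ 1) x0 := by
  have h1 : ρ wm x0 = - ρ (dg ϖ 1) x0 := by
    have e : (wm : GL (Fin 2) F) * sca ϖ = dg ϖ 1 * eta ϖ := by
      apply gl_ext <;> simp [val_wm, val_sca, val_dg, val_eta, Matrix.mul_apply, Fin.sum_univ_two]
    have := congrArg (fun g => ρ g x0) e
    simp only [rho_mul, h.sca, h.eta, map_neg] at this
    exact this
  have h2 : ρ (lwr 1) x0 = - ρ (upr 1 * dg ϖ 1) x0 := by
    have e : (lwr 1 : GL (Fin 2) F) * (bor 1 (-1) 1 * sca ϖ) = upr 1 * dg ϖ 1 * eta ϖ := by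
      apply gl_ext <;> simp [val_lwr, val_bor, val_upr, val_sca, val_dg, val_eta,
        Matrix.mul_apply, Fin.sum_univ_two]
    have := congrArg (fun g => ρ g x0) e
    simp only [rho_mul, h.sca, h.eta, map_neg] at this
    rw [h.iw (bor 1 (-1) 1) (bor_mem_Iw (by simp) (by simp) (by simp))] at this
    rw [this, rho_mul]
  have h3 := h.sum
  rw [h1, h2] at h3
  rw [← sub_eq_zero, ← h3]
  abel

lemma eM_meas (hϖ : v ϖ = WithZero.exp (-1)) (h : Special v ρ ϖ x0) : Meas v ϖ (eM ρ ϖ x0) where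
  ball := by
    intro m a b hab
    unfold eM
    have hz : v ((a - b) / pk ϖ m) ≤ 1 := by
      rw [map_div₀, v_pk v ϖ hϖ, div_le_one₀ (by simp)]
      exact hab
    have e : upr a * dg (ϖ ^ m) 1 = upr b * dg (ϖ ^ m) 1 * upr ((a - b) / pk ϖ m) := by
      have hp : pk ϖ m ≠ 0 := pk_ne ϖ m
      unfold pk at hp ⊢
      apply gl_ext <;> simp [val_upr, val_dg, Matrix.mul_apply, Fin.sum_univ_two]
      field_simp
      ring
    rw [e, rho_mul, h.iw _ (upr_mem_Iw hz)]
  split := by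
    intro m a
    unfold eM
    have e1 : upr a * dg (ϖ ^ (m + 1)) 1 = upr a * dg (ϖ ^ m) 1 * dg ϖ 1 := by
      apply gl_ext <;> simp [val_upr, val_dg, Matrix.mul_apply, Fin.sum_univ_two, zpow_add]
    have e2 : upr (a + pk ϖ m) * dg (ϖ ^ (m + 1)) 1 = upr a * dg (ϖ ^ m) 1 * (upr 1 * dg ϖ 1) := by
      apply gl_ext <;> simp [val_upr, val_dg, Matrix.mul_apply, Fin.sum_univ_two, zpow_add, pk]
      ring
    rw [e1, e2, rho_mul _ (dg ϖ 1), rho_mul _ (upr 1 * dg ϖ 1), ← map_add, ← special_split h]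

lemma P1rep_sca (z : Fˣ) (φ : OnePoint F → ℂ) : P1rep F (sca z) φ = φ := by
  funext x
  have e : (sca z)⁻¹.val = !![(↑z⁻¹ : F), -(↑z⁻¹ : F) * 0 * (↑z⁻¹ : F); 0, (↑z⁻¹ : F)] := rfl
  cases x with
  | infty =>
    apply P1rep_infty_infty
    rw [e]; simp
  | coe x =>
    apply P1rep_some
    · rw [e]; simp
    · rw [e]; simp [mul_comm]

lemma P1rep_mul (g h : GL (Fin 2) F) (φ : OnePoint F → ℂ) :
    P1rep F (g * h) φ = P1rep F g (P1rep F h φ) := by
  rw [map_mul]; rfl

/-- the constant function `1`. -/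
lemma P1rep_const (g : GL (Fin 2) F) (c : ℂ) : P1rep F g (fun _ => c) = fun _ => c := rfl

lemma P1rep_eta_indO (hϖ : v ϖ = WithZero.exp (-1)) :
    P1rep F (eta ϖ) (indO v) = (fun _ => (1 : ℂ)) - indO v := by
  classical
  have e : (eta ϖ)⁻¹.val = !![0, (↑ϖ⁻¹ : F); 1, 0] := rfl
  have hmem : ∀ y : F, ((y : OnePoint F) ∈ ballO v) ↔ v y ≤ 1 := by
    intro y
    constructor
    · rintro ⟨z, hz, hz'⟩
      rw [OnePoint.coe_eq_coe] at hz
      rwa [hz]
    · intro h
      exact ⟨y, rfl, h⟩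
  have hinf : ∞ ∉ ballO v := by
    rintro ⟨z, hz, -⟩
    exact OnePoint.infty_ne_coe z hz
  funext x
  cases x with
  | infty =>
    rw [P1rep_infty_some _ _ 0]
    · simp only [indO, Pi.sub_apply, hmem, hinf]; simp
    · rw [e]; simp
    · rw [e]; simp
  | coe x =>
    by_cases hx : x = 0
    · subst hx
      rw [P1rep_some_infty]
      · simp only [indO, Pi.sub_apply, hmem, hinf]; simp
      · rw [e]; simp
    · rw [P1rep_some _ _ x ((↑ϖ⁻¹ : F) / x)]
      · simp only [indO, Pi.sub_apply, hmem]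
        have h1 : v ((↑ϖ⁻¹ : F) / x) ≤ 1 ↔ ¬ (v x ≤ 1) := by
          have hx' : 0 < v x := zero_lt_iff.2 (by simpa using hx)
          rw [map_div₀, div_le_one₀ hx', Units.val_inv_eq_inv_val, map_inv₀, hϖ, ← WithZero.exp_neg,
            neg_neg, not_le]
          rw [← not_lt, lt_exp_iff, not_le]
          simp
        by_cases h2 : v x ≤ 1
        · rw [if_neg (fun h => (h1.1 h) h2), if_pos h2]; simp
        · rw [if_pos (h1.2 h2), if_neg h2]; simp
      · rw [e]; simpa using hx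
      · rw [e]; simp [hx]

/-- The translates of the indicator function, as elements of `P1smooth`. -/
def gI (v : Valuation F ℤᵐ⁰) (g : GL (Fin 2) F) : P1smooth v := P1smRep v g ⟨indO v, indO_smooth v⟩

lemma gI_val (g : GL (Fin 2) F) : (gI v g).1 = P1rep F g (indO v) := rfl

lemma gI_mul (g h : GL (Fin 2) F) : P1smRep v g (gI v h) = gI v (g * h) := by
  unfold gI
  rw [map_mul]; rfl

lemma good_case (h2 : Loc2 v ϖ) (hs : Special v ρ ϖ x0) {g : GL (Fin 2) F} (hg : v (g.val 1 0) < v (g.val 1 1)) :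
    TT (eM_meas h2.1 hs) h2.1 (gI v g) = ρ g x0 := by
  have hd0 : g.val 1 1 ≠ 0 := by
    intro h0; rw [h0] at hg; simp at hg
  have hdet : g.val 0 0 * g.val 1 1 - g.val 0 1 * g.val 1 0 ≠ 0 := by
    have := g.det_ne_zero
    rwa [Matrix.det_fin_two] at this
  set α := g.val 0 0 with hα
  set β := g.val 0 1 with hβ
  set c := g.val 1 0 with hc
  set d := g.val 1 1 with hd
  have hy0 : (α * d - β * c) / d ^ 2 ≠ 0 := div_ne_zero hdet (pow_ne_zero 2 hd0)
  have hvy0 : v ((α * d - β * c) / d ^ 2) ≠ 0 := by simpa using hy0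
  set m : ℤ := - WithZero.log (v ((α * d - β * c) / d ^ 2)) with hm
  have hvy : v ((α * d - β * c) / d ^ 2) = WithZero.exp (-m) := by
    rw [hm, neg_neg, WithZero.exp_log hvy0]
  have hpm := pk_ne ϖ m
  let u : Fˣ := Units.mk0 ((α * d - β * c) / d ^ 2 / pk ϖ m) (div_ne_zero hy0 hpm)
  let z : Fˣ := Units.mk0 d hd0
  have hu : v u = 1 := by
    change v ((α * d - β * c) / d ^ 2 / pk ϖ m) = 1
    rw [map_div₀, hvy, v_pk v ϖ h2.1, div_self (by simp)]
  have hl : v (c / d) < 1 := by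
    rw [map_div₀, div_lt_one₀ (zero_lt_iff.2 (by simpa using hd0))]
    exact hg
  have e : g = (upr (β / d) * dg (ϖ ^ m) 1) * ((bor u 1 0 * lwr (c / d)) * sca z) := by
    have hpm' : ((ϖ ^ m : Fˣ) : F) ≠ 0 := hpm
    apply gl_ext
    · simp [val_upr, val_dg, val_bor, val_lwr, val_sca, Matrix.mul_apply, Fin.sum_univ_two, u, z,
        pk]
      rw [← hα]
      field_simp
      ring
    · simp [val_upr, val_dg, val_bor, val_lwr, val_sca, Matrix.mul_apply, Fin.sum_univ_two, u, z,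
        pk]
      rw [← hβ]
      field_simp
    · simp [val_upr, val_dg, val_bor, val_lwr, val_sca, Matrix.mul_apply, Fin.sum_univ_two, u, z,
        pk]
      rw [← hc]
      field_simp
    · simp [val_upr, val_dg, val_bor, val_lwr, val_sca, Matrix.mul_apply, Fin.sum_univ_two, u, z,
        pk]
      rfl
  have hI : bor u 1 0 * lwr (c / d) ∈ Iw v :=
    mul_mem (bor_mem_Iw hu (by simp) (by simp)) (lwr_mem_Iw hl)
  have e1 : (gI v g).1 = ind v ϖ m (β / d) := by
    rw [gI_val, e, P1rep_mul (upr (β / d) * dg (ϖ ^ m) 1), P1rep_mul (bor u 1 0 * lwr (c / d)),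
      P1rep_sca, Iw_indO v hI]
    rfl
  rw [TT_ind (eM_meas h2.1 hs) h2 _ m (β / d) e1, e, rho_mul (upr (β / d) * dg (ϖ ^ m) 1),
    rho_mul (bor u 1 0 * lwr (c / d)), hs.sca, hs.iw _ hI]
  rfl

lemma good_eta (h2 : Loc2 v ϖ) (hs : Special v ρ ϖ x0) {g : GL (Fin 2) F} (hg : TT (eM_meas h2.1 hs) h2.1 (gI v g) = ρ g x0) :
    TT (eM_meas h2.1 hs) h2.1 (gI v (g * eta ϖ)) = ρ (g * eta ϖ) x0 := by
  have h1 : (fun _ => (1 : ℂ)) ∈ P1smooth v := ⟨0, fun _ _ => rfl⟩
  have e : gI v (g * eta ϖ) = (⟨fun _ => (1 : ℂ), h1⟩ : P1smooth v) - gI v g := by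
    apply Subtype.ext
    rw [gI_val, P1rep_mul, P1rep_eta_indO h2.1, map_sub, P1rep_const]
    rfl
  rw [e, map_sub, TT_const _ _ _ ⟨1, fun _ => rfl⟩, hg, rho_mul, hs.eta, map_neg, zero_sub]

lemma good (h2 : Loc2 v ϖ) (hs : Special v ρ ϖ x0) (g : GL (Fin 2) F) : TT (eM_meas h2.1 hs) h2.1 (gI v g) = ρ g x0 := by
  by_cases hg : v (g.val 1 0) < v (g.val 1 1)
  · exact good_case h2 hs hg
  · have e : g = (g * (eta ϖ)⁻¹) * eta ϖ := by group
    rw [e]
    apply good_eta h2 hs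
    apply good_case h2 hs
    have hval : (g * (eta ϖ)⁻¹).val = g.val * !![0, (↑ϖ⁻¹ : F); 1, 0] := rfl
    have e0 : (g * (eta ϖ)⁻¹).val 1 0 = g.val 1 1 := by
      rw [hval, Matrix.mul_apply, Fin.sum_univ_two]; simp
    have e1 : (g * (eta ϖ)⁻¹).val 1 1 = g.val 1 0 * (↑ϖ⁻¹ : F) := by
      rw [hval, Matrix.mul_apply, Fin.sum_univ_two]; simp
    rw [e0, e1, map_mul, Units.val_inv_eq_inv_val, map_inv₀, h2.1]
    push Not at hg
    have hc0 : v (g.val 1 0) ≠ 0 := by
      intro h0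
      rw [h0] at hg
      have hd0 : v (g.val 1 1) = 0 := le_antisymm hg zero_le
      have := g.det_ne_zero
      rw [Matrix.det_fin_two] at this
      rw [map_eq_zero] at h0 hd0
      apply this
      rw [h0, hd0]; ring
    refine lt_of_le_of_lt hg ?_
    rw [← WithZero.exp_neg, neg_neg]
    have h3 : v (g.val 1 0) = WithZero.exp (WithZero.log (v (g.val 1 0))) := (WithZero.exp_log hc0).symm
    rw [h3, ← WithZero.exp_add, WithZero.exp_lt_exp]
    omega

/-- The ball indicators span. -/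
lemma mem_of_balls (h2 : Loc2 v ϖ) (W : Submodule ℂ (OnePoint F → ℂ)) (hW : ∀ k b, ind v ϖ k b ∈ W)
    (φ : OnePoint F → ℂ) (j : ℕ) (k : ℤ) (b : F)
    (hφ : ∀ x y : F, nb v (k + j) x y → φ x = φ y) : φ * ind v ϖ k b ∈ W := by
  classical
  induction j generalizing k b with
  | zero =>
    have e : φ * ind v ϖ k b = φ (b : OnePoint F) • ind v ϖ k b := by
      funext x
      cases x with
      | infty => simp [ind_infty]
      | coe x =>
        simp only [Pi.mul_apply, Pi.smul_apply, smul_eq_mul, ind_some v ϖ h2.1]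
        split_ifs with h
        · rw [hφ x b (by simpa using h)]
        · simp
    rw [e]
    exact W.smul_mem _ (hW k b)
  | succ j ih =>
    have e : φ * ind v ϖ k b = φ * ind v ϖ (k + 1) b + φ * ind v ϖ (k + 1) (b + pk ϖ k) := by
      rw [← mul_add]
      congr 1
      funext x
      cases x with
      | infty => simp [ind_infty]
      | coe x =>
        simp only [Pi.add_apply, ind_some v ϖ h2.1]
        by_cases h : nb v k x b
        · rw [if_pos h]
          rcases nb_split v ϖ h2 h with h' | h'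
          · rw [if_pos h', if_neg, add_zero]
            intro h''
            exact not_nb_pk v ϖ h2.1 k b (nb_trans v (nb_symm v h'') h')
          · rw [if_pos h', if_neg, zero_add]
            intro h''
            exact not_nb_pk v ϖ h2.1 k b (nb_trans v (nb_symm v h') h'')
        · rw [if_neg h, if_neg, if_neg, add_zero]
          · intro h'
            exact h (nb_trans v (nb_mono v (by omega) h') (nb_pk v ϖ h2.1 k b))
          · intro h'
            exact h (nb_mono v (by omega) h')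
    rw [e]
    refine W.add_mem (ih (k + 1) b ?_) (ih (k + 1) _ ?_)
    · intro x y hxy
      exact hφ x y (by convert hxy using 1; push_cast; ring)
    · intro x y hxy
      exact hφ x y (by convert hxy using 1; push_cast; ring)

lemma mem_of_balls' (h2 : Loc2 v ϖ) (W : Submodule ℂ (P1smooth v)) (hW : ∀ g, gI v g ∈ W)
    (h1 : ∀ φ ∈ P1const v, φ ∈ W) (φ : P1smooth v) : φ ∈ W := by
  classical
  obtain ⟨m, hm⟩ := lev_of_smooth v φ.2
  have hc : (fun _ => φ.1 ∞) ∈ P1smooth v := ⟨0, fun _ _ => rfl⟩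
  have key : (φ.1 - fun _ => φ.1 ∞) * ind v ϖ (-m) 0 ∈ W.map (P1smooth v).subtype := by
    apply mem_of_balls h2 (W.map (P1smooth v).subtype) (fun k b => ⟨gI v (upr b * dg (ϖ ^ k) 1), hW _, rfl⟩) _ (2 * m)
    intro x y hxy
    simp only [Pi.sub_apply]
    rw [hm.loc x y]
    refine nb_mono v ?_ hxy
    push_cast; omega
  have e : (φ.1 - fun _ => φ.1 ∞) * ind v ϖ (-m) 0 = φ.1 - fun _ => φ.1 ∞ := by
    funext x
    cases x with
    | infty => simp
    | coe x =>
      simp only [Pi.mul_apply, Pi.sub_apply, ind_some v ϖ h2.1]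
      split_ifs with h
      · simp
      · rw [hm.inf x, sub_self, zero_mul]
        unfold nb at h
        simp only [sub_zero, neg_neg, not_le] at h
        exact h.le
  rw [e] at key
  obtain ⟨ψ, hψ, hψ'⟩ := key
  have : φ = ψ + ⟨_, hc⟩ := by
    apply Subtype.ext
    rw [Submodule.coe_add]
    change φ.1 = (P1smooth v).subtype ψ + _
    rw [hψ']
    simp
  rw [this]
  exact W.add_mem hψ (h1 _ ⟨φ.1 ∞, fun _ => rfl⟩)

lemma equivariant (h2 : Loc2 v ϖ) (hs : Special v ρ ϖ x0) (g : GL (Fin 2) F) (φ : P1smooth v) :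
    TT (eM_meas h2.1 hs) h2.1 (P1smRep v g φ) = ρ g (TT (eM_meas h2.1 hs) h2.1 φ) := by
  have : φ ∈ LinearMap.eqLocus ((TT (eM_meas h2.1 hs) h2.1).comp (P1smRep v g))
      ((ρ g).comp (TT (eM_meas h2.1 hs) h2.1)) := by
    apply mem_of_balls' h2
    · intro h
      change TT (eM_meas h2.1 hs) h2.1 (P1smRep v g (gI v h)) = ρ g (TT (eM_meas h2.1 hs) h2.1 (gI v h))
      rw [gI_mul, good h2 hs, good h2 hs, rho_mul]
    · rintro ψ ⟨c, hc⟩
      change TT (eM_meas h2.1 hs) h2.1 (P1smRep v g ψ) = ρ g (TT (eM_meas h2.1 hs) h2.1 ψ)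
      rw [TT_const _ _ ψ ⟨c, hc⟩, TT_const _ _ (P1smRep v g ψ) ⟨c, fun x => hc _⟩, map_zero]
  exact this

end U

theorem TaskUniv_proof : TaskUniv := by
  intro F _ v ϖ h2 E _ _ ρ x0 hs
  refine ⟨(P1const v).liftQ (TT (eM_meas h2.1 hs) h2.1) (fun φ hφ => TT_const _ _ φ hφ), ?_, ?_⟩
  · unfold s0
    rw [Submodule.liftQ_apply]
    have := good h2 hs 1
    rw [map_one] at this
    have e : gI v (1 : GL (Fin 2) F) = ⟨indO v, indO_smooth v⟩ := by
      unfold gI; rw [map_one]; rfl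
    rw [e] at this
    exact this
  · intro g y
    obtain ⟨φ, rfl⟩ := Submodule.Quotient.mk_surjective _ y
    rw [Submodule.liftQ_apply, ← equivariant h2 hs]
    rfl

end N589LL
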