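import Pool.Agent.N589.LL.Tasks

/-!
# LL/04, part 1: balls, indicator functions, action of matrices on `ℙ¹(F)`
-/

open scoped WithZero MatrixGroups
open OnePoint

noncomputable section

namespace N589LL

section act

variable {F : Type} [Field F]

lemma P1rep_some (g : GL (Fin 2) F) (φ : OnePoint F → ℂ) (x y : F)
    (h : g⁻¹.val 1 0 * x + g⁻¹.val 1 1 ≠ 0)
    (hy : g⁻¹.val 0 0 * x + g⁻¹.val 0 1 = y * (g⁻¹.val 1 0 * x + g⁻¹.val 1 1)) :
    P1rep F g φ (x : OnePoint F) = φ (y : OnePoint F) := by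
  classical
  change φ (g⁻¹ • (x : OnePoint F)) = φ (y : OnePoint F)
  rw [smul_some_eq_ite, if_neg h]
  congr 2
  rw [div_eq_iff h]
  exact hy

lemma P1rep_some_infty (g : GL (Fin 2) F) (φ : OnePoint F → ℂ) (x : F)
    (h : g⁻¹.val 1 0 * x + g⁻¹.val 1 1 = 0) :
    P1rep F g φ (x : OnePoint F) = φ ∞ := by
  classical
  change φ (g⁻¹ • (x : OnePoint F)) = φ ∞
  rw [smul_some_eq_ite, if_pos h]

lemma P1rep_infty_some (g : GL (Fin 2) F) (φ : OnePoint F → ℂ) (y : F)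
    (h : g⁻¹.val 1 0 ≠ 0) (hy : g⁻¹.val 0 0 = y * g⁻¹.val 1 0) :
    P1rep F g φ ∞ = φ (y : OnePoint F) := by
  classical
  change φ (g⁻¹ • ∞) = φ (y : OnePoint F)
  rw [smul_infty_eq_ite, if_neg h]
  congr 2
  rw [div_eq_iff h]
  exact hy

lemma P1rep_infty_infty (g : GL (Fin 2) F) (φ : OnePoint F → ℂ)
    (h : g⁻¹.val 1 0 = 0) : P1rep F g φ ∞ = φ ∞ := by
  classical
  change φ (g⁻¹ • ∞) = φ ∞
  rw [smul_infty_eq_ite, if_pos h]

end act

section val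

variable {F : Type} [Field F] (v : Valuation F ℤᵐ⁰) (ϖ : Fˣ)

/-- the function `p k = ϖ ^ k` -/
def pk (k : ℤ) : F := ((ϖ ^ k : Fˣ) : F)

lemma pk_ne (k : ℤ) : pk ϖ k ≠ 0 := Units.ne_zero _

lemma pk_add (k l : ℤ) : pk ϖ (k + l) = pk ϖ k * pk ϖ l := by
  simp [pk, zpow_add]

lemma v_pk (h : v ϖ = WithZero.exp (-1)) (k : ℤ) : v (pk ϖ k) = WithZero.exp (-k) := by
  unfold pk
  rw [Units.val_zpow_eq_zpow_val, map_zpow₀, h, ← WithZero.exp_zsmul]
  simp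

/-- the closed ball relation: `x` is in the ball `b + ϖ^k O`. -/
def nb (k : ℤ) (x b : F) : Prop := v (x - b) ≤ WithZero.exp (-k)

lemma nb_refl (k : ℤ) (x : F) : nb v k x x := by simp [nb]

lemma nb_symm {k : ℤ} {x y : F} (h : nb v k x y) : nb v k y x := by
  unfold nb at *; rwa [Valuation.map_sub_swap]

lemma nb_trans {k : ℤ} {x y z : F} (h : nb v k x y) (h' : nb v k y z) : nb v k x z := by
  unfold nb at *
  have : x - z = (x - y) + (y - z) := by ring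
  rw [this]
  exact (v.map_add _ _).trans (max_le h h')

lemma nb_mono {k l : ℤ} (hkl : k ≤ l) {x y : F} (h : nb v l x y) : nb v k x y := by
  unfold nb at *
  exact h.trans (by rw [WithZero.exp_le_exp]; omega)

lemma nb_pk (h : v ϖ = WithZero.exp (-1)) (k : ℤ) (b : F) : nb v k (b + pk ϖ k) b := by
  unfold nb
  rw [add_sub_cancel_left, v_pk v ϖ h]

lemma not_nb_pk (h : v ϖ = WithZero.exp (-1)) (k : ℤ) (b : F) : ¬ nb v (k + 1) (b + pk ϖ k) b := by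
  unfold nb
  rw [add_sub_cancel_left, v_pk v ϖ h, WithZero.exp_le_exp]
  omega

lemma lt_exp_iff (x : ℤᵐ⁰) (k : ℤ) : x < WithZero.exp k ↔ x ≤ WithZero.exp (k - 1) := by
  by_cases hx : x = 0
  · subst hx; simp
  · rw [← WithZero.log_lt_iff_lt_exp hx, ← WithZero.log_le_iff_le_exp hx]
    omega

lemma nb_split (h : Loc2 v ϖ) {k : ℤ} {x b : F} (hx : nb v k x b) :
    nb v (k + 1) x b ∨ nb v (k + 1) x (b + pk ϖ k) := by
  have h1 : v ((x - b) / pk ϖ k) ≤ 1 := by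
    rw [map_div₀, v_pk v ϖ h.1]
    refine (div_le_one₀ (by simp)).2 hx
  rcases h.2 _ h1 with h2 | h2
  · left
    rw [map_div₀, v_pk v ϖ h.1, div_lt_one₀ (by simp), lt_exp_iff] at h2
    unfold nb
    convert h2 using 2
    ring
  · right
    have e : (x - b) / pk ϖ k - 1 = (x - (b + pk ϖ k)) / pk ϖ k := by
      field_simp [pk_ne ϖ k]
      ring
    rw [e, map_div₀, v_pk v ϖ h.1, div_lt_one₀ (by simp), lt_exp_iff] at h2
    unfold nb
    convert h2 using 2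
    ring

open Classical in
/-- indicator of the ball `b + ϖ^k O` -/
def ind (k : ℤ) (b : F) : OnePoint F → ℂ := P1rep F (upr b * dg (ϖ ^ k) 1) (indO v)

open Classical in
lemma ind_some (h : v ϖ = WithZero.exp (-1)) (k : ℤ) (b x : F) :
    ind v ϖ k b (x : OnePoint F) = if nb v k x b then 1 else 0 := by
  unfold ind
  have e : (upr b * dg (ϖ ^ k) 1)⁻¹.val = !![(pk ϖ k)⁻¹, -(pk ϖ k)⁻¹ * b; 0, 1] := by
    rw [mul_inv_rev, Units.val_mul]
    change !![((ϖ ^ k)⁻¹ : Fˣ).val, -((ϖ ^ k)⁻¹ : Fˣ).val * 0 * ((1 : Fˣ)⁻¹ : Fˣ).val; 0, ((1 : Fˣ)⁻¹ : Fˣ).val]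
      * !![1, -b; 0, 1] = _
    rw [Matrix.mul_fin_two]
    simp [pk]
  rw [P1rep_some _ _ x ((x - b) / pk ϖ k)]
  · unfold indO
    have : ((((x - b) / pk ϖ k : F) : OnePoint F) ∈ ballO v) ↔ nb v k x b := by
      unfold ballO nb
      constructor
      · rintro ⟨y, hy, hy'⟩
        rw [OnePoint.coe_eq_coe] at hy
        rw [← hy, map_div₀, v_pk v ϖ h, div_le_one₀ (by simp)] at hy'
        exact hy'
      · intro hy
        exact ⟨_, rfl, by rw [map_div₀, v_pk v ϖ h, div_le_one₀ (by simp)]; exact hy⟩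
    simp only [this]
  · rw [e]; simp
  · rw [e]; simp; field_simp [pk_ne ϖ k]; ring

lemma ind_infty (k : ℤ) (b : F) : ind v ϖ k b ∞ = 0 := by
  classical
  unfold ind
  rw [P1rep_infty_infty]
  · unfold indO
    rw [if_neg]
    rintro ⟨y, hy, -⟩
    exact OnePoint.infty_ne_coe y hy
  · rw [mul_inv_rev, Units.val_mul]
    change (!![((ϖ ^ k)⁻¹ : Fˣ).val, -((ϖ ^ k)⁻¹ : Fˣ).val * 0 * ((1 : Fˣ)⁻¹ : Fˣ).val; 0, ((1 : Fˣ)⁻¹ : Fˣ).val]
      * !![1, -b; 0, 1]) 1 0 = _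
    rw [Matrix.mul_fin_two]
    simp

/-- level `m` functions -/
structure Lev (m : ℕ) (φ : OnePoint F → ℂ) : Prop where
  loc : ∀ x y : F, nb v m x y → φ x = φ y
  inf : ∀ x : F, WithZero.exp (m : ℤ) ≤ v x → φ x = φ ∞

lemma Lev.mono {m : ℕ} {φ : OnePoint F → ℂ} (h : Lev v m φ) {n : ℕ} (hmn : m ≤ n) : Lev v n φ := by
  refine ⟨fun x y hxy => h.loc x y (nb_mono v (by exact_mod_cast hmn) hxy), fun x hx => h.inf x ?_⟩
  exact le_trans (by rw [WithZero.exp_le_exp]; exact_mod_cast hmn) hx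

lemma Lev.add {m : ℕ} {φ ψ : OnePoint F → ℂ} (h : Lev v m φ) (h' : Lev v m ψ) : Lev v m (φ + ψ) := by
  refine ⟨fun x y hxy => ?_, fun x hx => ?_⟩
  · simp only [Pi.add_apply]; rw [h.loc x y hxy, h'.loc x y hxy]
  · simp only [Pi.add_apply]; rw [h.inf x hx, h'.inf x hx]

lemma Lev.smul {m : ℕ} {φ : OnePoint F → ℂ} (h : Lev v m φ) (c : ℂ) : Lev v m (c • φ) := by
  refine ⟨fun x y hxy => ?_, fun x hx => ?_⟩
  · simp only [Pi.smul_apply]; rw [h.loc x y hxy]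
  · simp only [Pi.smul_apply]; rw [h.inf x hx]

lemma upr_mem_glInt {x : F} (hx : v x ≤ 1) : upr x ∈ glInt v := by
  refine ⟨fun i j => ?_, fun i j => ?_⟩
  · fin_cases i <;> fin_cases j <;> simp [upr, hx]
  · change v ((!![1, -x; 0, 1] : Matrix (Fin 2) (Fin 2) F) i j) ≤ 1
    fin_cases i <;> fin_cases j <;> simp [hx]

lemma lwr_mem_glInt {x : F} (hx : v x ≤ 1) : lwr x ∈ glInt v := by
  refine ⟨fun i j => ?_, fun i j => ?_⟩
  · fin_cases i <;> fin_cases j <;> simp [lwr, hx]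
  · change v ((!![1, 0; -x, 1] : Matrix (Fin 2) (Fin 2) F) i j) ≤ 1
    fin_cases i <;> fin_cases j <;> simp [hx]

lemma exp_neg_le_one (m : ℕ) : (WithZero.exp (-(m : ℤ)) : ℤᵐ⁰) ≤ 1 := by
  rw [← WithZero.exp_zero, WithZero.exp_le_exp]; omega

lemma upr_mem_Km {x : F} {m : ℕ} (hx : v x ≤ WithZero.exp (-(m : ℤ))) : upr x ∈ Km v m := by
  refine ⟨upr_mem_glInt v (hx.trans (exp_neg_le_one m)), fun i j => ?_⟩
  change v ((!![1, x; 0, 1] - 1 : Matrix (Fin 2) (Fin 2) F) i j) ≤ _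
  rw [WithZero.exp_neg] at hx ⊢
  fin_cases i <;> fin_cases j <;> simp [hx]

lemma lwr_mem_Km {x : F} {m : ℕ} (hx : v x ≤ WithZero.exp (-(m : ℤ))) : lwr x ∈ Km v m := by
  refine ⟨lwr_mem_glInt v (hx.trans (exp_neg_le_one m)), fun i j => ?_⟩
  change v ((!![1, 0; x, 1] - 1 : Matrix (Fin 2) (Fin 2) F) i j) ≤ _
  rw [WithZero.exp_neg] at hx ⊢
  fin_cases i <;> fin_cases j <;> simp [hx]

lemma lev_of_smooth {φ : OnePoint F → ℂ} (h : φ ∈ P1smooth v) : ∃ m : ℕ, Lev v m φ := by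
  obtain ⟨m, hm⟩ := h
  refine ⟨m, fun x y hxy => ?_, fun x hx => ?_⟩
  · have h1 : upr (x - y) ∈ Km v m := upr_mem_Km v hxy
    have h2 := congrFun (hm _ h1) (x : OnePoint F)
    rw [← h2]
    refine P1rep_some _ _ _ _ ?_ ?_
    · change (!![1, -(x - y); 0, 1] : Matrix (Fin 2) (Fin 2) F) 1 0 * x +
        (!![1, -(x - y); 0, 1] : Matrix (Fin 2) (Fin 2) F) 1 1 ≠ 0
      simp
    · change (!![1, -(x - y); 0, 1] : Matrix (Fin 2) (Fin 2) F) 0 0 * x +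
        (!![1, -(x - y); 0, 1] : Matrix (Fin 2) (Fin 2) F) 0 1 = y *
         ((!![1, -(x - y); 0, 1] : Matrix (Fin 2) (Fin 2) F) 1 0 * x +
        (!![1, -(x - y); 0, 1] : Matrix (Fin 2) (Fin 2) F) 1 1)
      simp
  · have hx0 : x ≠ 0 := by
      rintro rfl
      simp at hx
    have h1 : lwr (-x⁻¹) ∈ Km v m := by
      apply lwr_mem_Km
      rw [Valuation.map_neg, map_inv₀, WithZero.exp_neg]
      exact (inv_le_inv₀ (zero_lt_iff.2 (by simpa using hx0)) (by simp)).2 hx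
    have h2 := congrFun (hm _ h1) ∞
    rw [← h2]
    symm
    refine P1rep_infty_some _ _ _ ?_ ?_
    · change (!![1, 0; -(-x⁻¹), 1] : Matrix (Fin 2) (Fin 2) F) 1 0 ≠ 0
      simp [hx0]
    · change (!![1, 0; -(-x⁻¹), 1] : Matrix (Fin 2) (Fin 2) F) 0 0 =
        x * (!![1, 0; -(-x⁻¹), 1] : Matrix (Fin 2) (Fin 2) F) 1 0
      simp [hx0]

end val

end N589LL
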