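import Pool.Agent.N767.LL.Uni1

/-!
# LL/04, part 2: the sum operator and the map `T`
-/

open scoped WithZero MatrixGroups
open OnePoint

noncomputable section

namespace N589LL

section S

variable {F : Type} [Field F] (v : Valuation F ℤᵐ⁰) (ϖ : Fˣ) {E : Type} [AddCommGroup E]
  [Module ℂ E]

/-- sum operator -/
def Ssum (e : F → ℤ → E) (φ : F → ℂ) : ℕ → ℤ → F → E
  | 0, k, a => φ a • e a k
  | j + 1, k, a => Ssum e φ j (k + 1) a + Ssum e φ j (k + 1) (a + pk ϖ k)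

/-- finitely additive `E`-valued measures. -/
structure Meas (e : F → ℤ → E) : Prop where
  ball : ∀ m a b, nb v m a b → e a m = e b m
  split : ∀ m a, e a m = e a (m + 1) + e (a + pk ϖ m) (m + 1)

variable {v ϖ}

lemma Ssum_add (e : F → ℤ → E) (φ ψ : F → ℂ) (j : ℕ) (k : ℤ) (a : F) :
    Ssum ϖ e (φ + ψ) j k a = Ssum ϖ e φ j k a + Ssum ϖ e ψ j k a := by
  induction j generalizing k a with
  | zero => simp [Ssum, add_smul]
  | succ j ih => simp only [Ssum, ih]; abel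

lemma Ssum_smul (e : F → ℤ → E) (c : ℂ) (φ : F → ℂ) (j : ℕ) (k : ℤ) (a : F) :
    Ssum ϖ e (c • φ) j k a = c • Ssum ϖ e φ j k a := by
  induction j generalizing k a with
  | zero => simp [Ssum, mul_smul]
  | succ j ih => simp only [Ssum, ih, smul_add]

lemma Ssum_const {e : F → ℤ → E} (he : Meas v ϖ e) (hϖ : v ϖ = WithZero.exp (-1)) (c : ℂ)
    (φ : F → ℂ) (j : ℕ) (k : ℤ) (a : F)
    (h : ∀ x, nb v k x a → φ x = c) : Ssum ϖ e φ j k a = c • e a k := by
  induction j generalizing k a with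
  | zero => simp [Ssum, h a (nb_refl v k a)]
  | succ j ih =>
    rw [Ssum, ih (k + 1) a, ih (k + 1) (a + pk ϖ k), ← smul_add, ← he.split]
    · intro x hx
      exact h x (nb_trans v (nb_mono v (by omega) hx) (nb_pk v ϖ hϖ k a))
    · intro x hx
      exact h x (nb_mono v (by omega) hx)

lemma Ssum_refine {e : F → ℤ → E} (he : Meas v ϖ e) (hϖ : v ϖ = WithZero.exp (-1))
    (φ : F → ℂ) (j : ℕ) (k : ℤ) (a : F)
    (h : ∀ x y, nb v (k + j) x y → φ x = φ y) : Ssum ϖ e φ (j + 1) k a = Ssum ϖ e φ j k a := by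
  induction j generalizing k a with
  | zero =>
    rw [Ssum_const he hϖ (φ a) φ (0 + 1) k a, Ssum]
    intro x hx
    exact h x a (by simpa using hx)
  | succ j ih =>
    rw [Ssum, ih (k + 1) a, ih (k + 1) (a + pk ϖ k), Ssum]
    · intro x y hxy
      exact h x y (by convert hxy using 1; push_cast; ring)
    · intro x y hxy
      exact h x y (by convert hxy using 1; push_cast; ring)

lemma Ssum_zero {e : F → ℤ → E} (he : Meas v ϖ e) (hϖ : v ϖ = WithZero.exp (-1))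
    (φ : F → ℂ) (j : ℕ) (k : ℤ) (a : F)
    (h : ∀ x, nb v k x a → φ x = 0) : Ssum ϖ e φ j k a = 0 := by
  rw [Ssum_const he hϖ 0 φ j k a h, zero_smul]

lemma Ssum_ball {e : F → ℤ → E} (he : Meas v ϖ e) (h2 : Loc2 v ϖ)
    (φ : F → ℂ) (m : ℤ) (b : F) (h1 : ∀ x, nb v m x b → φ x = 1) (h0 : ∀ x, ¬ nb v m x b → φ x = 0)
    (j : ℕ) (k : ℤ) (a : F) (hk : k ≤ m) (hj : m ≤ k + j) (hb : nb v k b a) :
    Ssum ϖ e φ j k a = e b m := by
  induction j generalizing k a with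
  | zero =>
    have hkm : k = m := by simp at hj; omega
    subst hkm
    rw [Ssum, h1 a (nb_symm v hb), one_smul, he.ball k a b (nb_symm v hb)]
  | succ j ih =>
    by_cases hkm : k = m
    · subst hkm
      rw [Ssum_const he h2.1 1 φ (j + 1) k a, one_smul, he.ball k a b (nb_symm v hb)]
      intro x hx
      exact h1 x (nb_trans v hx (nb_symm v hb))
    · have hk' : k + 1 ≤ m := by omega
      have hj' : m ≤ (k + 1) + j := by push_cast at hj; omega
      rcases nb_split v ϖ h2 hb with h | h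
      · rw [Ssum, ih (k + 1) a hk' hj' h, Ssum_zero he h2.1, add_zero]
        intro x hx
        apply h0
        intro hxb
        apply not_nb_pk v ϖ h2.1 k a
        exact nb_trans v (nb_symm v hx) (nb_trans v (nb_mono v hk' hxb) h)
      · rw [Ssum, ih (k + 1) _ hk' hj' h, Ssum_zero he h2.1, zero_add]
        intro x hx
        apply h0
        intro hxb
        apply not_nb_pk v ϖ h2.1 k a
        exact nb_trans v (nb_symm v h) (nb_trans v (nb_symm v (nb_mono v hk' hxb)) hx)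

/-- normalisation -/
def nrmz (φ : OnePoint F → ℂ) : F → ℂ := fun x => φ x - φ ∞

/-- `T_m` -/
def Tm (ϖ : Fˣ) (e : F → ℤ → E) (m : ℕ) (φ : OnePoint F → ℂ) : E :=
  Ssum ϖ e (nrmz φ) (2 * m) (-m) 0

lemma Tm_add (e : F → ℤ → E) (m : ℕ) (φ ψ : OnePoint F → ℂ) :
    Tm ϖ e m (φ + ψ) = Tm ϖ e m φ + Tm ϖ e m ψ := by
  unfold Tm
  rw [← Ssum_add]
  congr 1
  funext x
  simp only [nrmz, Pi.add_apply]; ring

lemma Tm_smul (e : F → ℤ → E) (m : ℕ) (c : ℂ) (φ : OnePoint F → ℂ) :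
    Tm ϖ e m (c • φ) = c • Tm ϖ e m φ := by
  unfold Tm
  rw [← Ssum_smul]
  congr 1
  funext x
  simp only [nrmz, Pi.smul_apply, smul_eq_mul]; ring

lemma Tm_succ {e : F → ℤ → E} (he : Meas v ϖ e) (hϖ : v ϖ = WithZero.exp (-1)) (m : ℕ)
    (φ : OnePoint F → ℂ) (h : Lev v m φ) : Tm ϖ e (m + 1) φ = Tm ϖ e m φ := by
  unfold Tm
  have e1 : 2 * (m + 1) = (2 * m + 1) + 1 := by ring
  have e2 : (-((m + 1 : ℕ) : ℤ)) + 1 = -(m : ℤ) := by push_cast; ring
  rw [e1, Ssum, e2, Ssum_refine he hϖ, Ssum_zero (k := -(m : ℤ)) (a := 0 + pk ϖ (-((m + 1 : ℕ) : ℤ))) he hϖ, add_zero]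
  · intro x hx
    unfold nrmz
    rw [h.inf x, sub_self]
    have h3 : v (0 + pk ϖ (-((m + 1 : ℕ) : ℤ))) = WithZero.exp ((m : ℤ) + 1) := by
      rw [zero_add, v_pk v ϖ hϖ]; simp
    have h4 : v x = WithZero.exp ((m : ℤ) + 1) := by
      have : x = (0 + pk ϖ (-((m + 1 : ℕ) : ℤ))) + (x - (0 + pk ϖ (-((m + 1 : ℕ) : ℤ)))) := by ring
      rw [this, Valuation.map_add_eq_of_lt_left, h3]
      rw [h3]
      refine lt_of_le_of_lt hx ?_
      rw [WithZero.exp_lt_exp]; omega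
    rw [h4, WithZero.exp_le_exp]; omega
  · intro x y hxy
    unfold nrmz
    rw [h.loc x y]
    refine nb_mono v ?_ hxy
    push_cast; omega

lemma Tm_eq {e : F → ℤ → E} (he : Meas v ϖ e) (hϖ : v ϖ = WithZero.exp (-1)) (m n : ℕ)
    (φ : OnePoint F → ℂ) (h : Lev v m φ) (hn : m ≤ n) : Tm ϖ e n φ = Tm ϖ e m φ := by
  obtain ⟨d, rfl⟩ := Nat.exists_eq_add_of_le hn
  clear hn
  induction d with
  | zero => rfl
  | succ d ih => rw [← ih, ← add_assoc, Tm_succ he hϖ (m + d) φ (h.mono v (by omega))]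

lemma Tm_eq' {e : F → ℤ → E} (he : Meas v ϖ e) (hϖ : v ϖ = WithZero.exp (-1)) (m n : ℕ)
    (φ : OnePoint F → ℂ) (h : Lev v m φ) (h' : Lev v n φ) : Tm ϖ e n φ = Tm ϖ e m φ := by
  rcases le_total m n with hmn | hmn
  · exact Tm_eq he hϖ m n φ h hmn
  · exact (Tm_eq he hϖ n m φ h' hmn).symm

/-- a level of a smooth function -/
def lev {φ : OnePoint F → ℂ} (h : φ ∈ P1smooth v) : ℕ := (lev_of_smooth v h).choose

lemma lev_spec {φ : OnePoint F → ℂ} (h : φ ∈ P1smooth v) : Lev v (lev h) φ :=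
  (lev_of_smooth v h).choose_spec

/-- the map `T` on smooth functions -/
def TT {e : F → ℤ → E} (he : Meas v ϖ e) (hϖ : v ϖ = WithZero.exp (-1)) :
    P1smooth v →ₗ[ℂ] E where
  toFun φ := Tm ϖ e (lev φ.2) φ.1
  map_add' φ ψ := by
    have h1 : Lev v (max (lev φ.2) (lev ψ.2)) φ.1 := (lev_spec φ.2).mono v (le_max_left _ _)
    have h2 : Lev v (max (lev φ.2) (lev ψ.2)) ψ.1 := (lev_spec ψ.2).mono v (le_max_right _ _)
    have h3 : Lev v (max (lev φ.2) (lev ψ.2)) ((φ + ψ : P1smooth v) : OnePoint F → ℂ) :=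
      h1.add v h2
    rw [Tm_eq' he hϖ _ _ _ h3 (lev_spec (φ + ψ).2), Tm_eq' he hϖ _ _ _ h1 (lev_spec φ.2),
      Tm_eq' he hϖ _ _ _ h2 (lev_spec ψ.2), ← Tm_add]
    rfl
  map_smul' c φ := by
    have h1 : Lev v (lev φ.2) ((c • φ : P1smooth v) : OnePoint F → ℂ) :=
      (lev_spec φ.2).smul v c
    rw [Tm_eq' he hϖ _ _ _ h1 (lev_spec (c • φ).2), RingHom.id_apply, ← Tm_smul]
    rfl

lemma TT_apply {e : F → ℤ → E} (he : Meas v ϖ e) (hϖ : v ϖ = WithZero.exp (-1))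
    (φ : P1smooth v) (m : ℕ) (h : Lev v m φ.1) : TT he hϖ φ = Tm ϖ e m φ.1 :=
  Tm_eq' he hϖ _ _ _ h (lev_spec φ.2)

lemma TT_const {e : F → ℤ → E} (he : Meas v ϖ e) (hϖ : v ϖ = WithZero.exp (-1))
    (φ : P1smooth v) (h : φ ∈ P1const v) : TT he hϖ φ = 0 := by
  obtain ⟨c, hc⟩ := h
  change Tm ϖ e (lev φ.2) φ.1 = 0
  unfold Tm
  apply Ssum_zero he hϖ
  intro x _
  unfold nrmz
  rw [hc, hc, sub_self]

lemma TT_ind {e : F → ℤ → E} (he : Meas v ϖ e) (h2 : Loc2 v ϖ)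
    (φ : P1smooth v) (k : ℤ) (b : F) (hφ : φ.1 = ind v ϖ k b) : TT he h2.1 φ = e b k := by
  classical
  obtain ⟨N, hN⟩ := exists_exp_bound v b
  have hL : Lev v (max (lev φ.2) (max N k.natAbs)) φ.1 :=
    (lev_spec φ.2).mono v (le_max_left _ _)
  rw [TT_apply he h2.1 φ _ hL]
  unfold Tm
  set M := max (lev φ.2) (max N k.natAbs) with hM
  have hMN : N ≤ M := (le_max_left N k.natAbs).trans (le_max_right _ _)
  have hMk : k.natAbs ≤ M := (le_max_right N k.natAbs).trans (le_max_right _ _)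
  apply Ssum_ball he h2 _ k b
  · intro x hx
    unfold nrmz
    rw [hφ, ind_some v ϖ h2.1, ind_infty, if_pos hx, sub_zero]
  · intro x hx
    unfold nrmz
    rw [hφ, ind_some v ϖ h2.1, ind_infty, if_neg hx, sub_zero]
  · omega
  · push_cast; omega
  · unfold nb
    rw [sub_zero, neg_neg]
    refine hN.trans ?_
    rw [WithZero.exp_le_exp]; exact_mod_cast hMN

end S

end N589LL
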